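import Pool.Agent.KS6_12.Disc.Diff

set_option autoImplicit false

/-!
# The exponent of the different is bounded in terms of the degree, second part (helper12)
-/

open Module nonZeroDivisors NumberField IsDedekindDomain

namespace Pool.Agent.KS6_12.Disc

variable {L : Type*} [Field L] [NumberField L]

theorem absNorm_span_pow (p k : ℕ) :
    Ideal.absNorm (Ideal.span {((p ^ k : ℕ) : 𝓞 L)}) = p ^ (k * finrank ℚ L) := by
  rw [Ideal.absNorm_span_singleton]
  have h : (Algebra.norm ℤ) ((p ^ k : ℕ) : 𝓞 L) = ((p ^ k : ℕ) : ℤ) ^ finrank ℚ L := by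
    have h2 : ((p ^ k : ℕ) : 𝓞 L) = algebraMap ℤ (𝓞 L) ((p ^ k : ℕ) : ℤ) := by simp
    rw [h2, Algebra.norm_algebraMap, RingOfIntegers.rank]
  rw [h, Int.natAbs_pow, Int.natAbs_natCast, ← pow_mul]

/-- the exponent of `P` in `(p)` is at most the degree -/
theorem exp_le {p e : ℕ} (hp : p.Prime) {P : Ideal (𝓞 L)} (hP : P.IsPrime)
    (hpP : ((p : ℕ) : 𝓞 L) ∈ P) (he : P ^ e ∣ Ideal.span {((p : ℕ) : 𝓞 L)}) :
    e ≤ finrank ℚ L := by
  have h1 : Ideal.absNorm P ∣ p ^ finrank ℚ L := by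
    have h2 : P ∣ Ideal.span {((p ^ 1 : ℕ) : 𝓞 L)} := by
      rw [Ideal.dvd_span_singleton, pow_one]
      exact hpP
    have h3 := map_dvd Ideal.absNorm h2
    rwa [absNorm_span_pow, one_mul] at h3
  obtain ⟨f, hf, hf2⟩ := (Nat.dvd_prime_pow hp).1 h1
  have hf0 : 1 ≤ f := by
    rw [Nat.one_le_iff_ne_zero]
    rintro rfl
    rw [pow_zero] at hf2
    exact hP.ne_top (Ideal.absNorm_eq_one_iff.1 hf2)
  have h4 := map_dvd Ideal.absNorm he
  have h5 : Ideal.absNorm (Ideal.span {((p : ℕ) : 𝓞 L)}) = p ^ finrank ℚ L := by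
    have := absNorm_span_pow (L := L) p 1
    rwa [pow_one, one_mul] at this
  rw [map_pow, h5, hf2, ← pow_mul, Nat.pow_dvd_pow_iff_le_right hp.one_lt] at h4
  calc e = 1 * e := (one_mul e).symm
    _ ≤ f * e := Nat.mul_le_mul_right e hf0
    _ ≤ _ := h4

/-- **M3, sharp form**: `P ^ (e (log_p n + 1))` does not divide the different -/
theorem not_dvd_different {p e : ℕ} [Fact p.Prime] {P : Ideal (𝓞 L)} (hP : P.IsPrime)
    (hP0 : P ≠ ⊥) (he0 : 0 < e) {J : Ideal (𝓞 L)}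
    (hJ : P ^ e * J = Ideal.span {((p : ℕ) : 𝓞 L)}) (hPJ : ¬ P ∣ J) :
    ¬ P ^ (e * (Nat.log p (finrank ℚ L) + 1)) ∣ differentIdeal ℤ (𝓞 L) := by
  have hp : p.Prime := Fact.out
  intro hdvd
  obtain ⟨m, hm⟩ : ∃ m, m = Nat.log p (finrank ℚ L) + 1 := ⟨_, rfl⟩
  rw [← hm, pow_mul] at hdvd
  have hmax : P.IsMaximal := hP.isMaximal hP0
  have hcop : IsCoprime P J := by
    rw [Ideal.isCoprime_iff_sup_eq]
    by_contra hcon
    apply hPJ
    rw [Ideal.dvd_iff_le]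
    have h1 : P = P ⊔ J := hmax.eq_of_le hcon le_sup_left
    rw [h1]
    exact le_sup_right
  have h1 := key (p := p) (m := m) (I := (P ^ e) ^ m) (J := J ^ m) (by omega) (by
      rw [← mul_pow, hJ, Ideal.span_singleton_pow, Nat.cast_pow])
    ((hcop.pow_left.pow_left).pow_right) (by
      intro h
      rw [← pow_mul] at h
      have h2 : P ^ (e * m) ≤ P := Ideal.pow_le_self (Nat.mul_pos he0 (by omega)).ne'
      rw [h, top_le_iff] at h2
      exact hP.ne_top h2)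
    (Ideal.dvd_iff_le.1 hdvd)
  have h2 : finrank ℚ L < p ^ m := by
    rw [hm]
    exact Nat.lt_pow_succ_log_self hp.one_lt _
  omega

/-- **M3**: for all number fields of degree at most `n` and all primes `v` over `p`, the exponent of
`v` in the different is at most `E` -/
theorem m3 (n : ℕ) {p : ℕ} (hp : p.Prime) (L : Type*) [Field L] [NumberField L]
    (hn : finrank ℚ L ≤ n) (v : HeightOneSpectrum (𝓞 L)) (hv : ((p : ℕ) : 𝓞 L) ∈ v.asIdeal) :
    ¬ v.asIdeal ^ (n * (Nat.log p n + 1)) ∣ differentIdeal ℤ (𝓞 L) := by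
  have : Fact p.Prime := ⟨hp⟩
  have hv0 : v.asIdeal ≠ ⊥ := v.ne_bot
  have hs0 : Ideal.span {((p : ℕ) : 𝓞 L)} ≠ ⊥ := by
    rw [Ne, Ideal.span_singleton_eq_bot]
    exact_mod_cast hp.ne_zero
  have hfin : FiniteMultiplicity v.asIdeal (Ideal.span {((p : ℕ) : 𝓞 L)}) :=
    FiniteMultiplicity.of_not_isUnit (by
      rw [Ideal.isUnit_iff]; exact v.isPrime.ne_top) hs0
  obtain ⟨J, hJ, hPJ⟩ := hfin.exists_eq_pow_mul_and_not_dvd
  obtain ⟨e, he⟩ : ∃ e, e = multiplicity v.asIdeal (Ideal.span {((p : ℕ) : 𝓞 L)}) := ⟨_, rfl⟩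
  rw [← he] at hJ
  have he0 : 0 < e := by
    rw [Nat.pos_iff_ne_zero]
    rintro rfl
    rw [pow_zero, one_mul] at hJ
    apply hPJ
    rw [← hJ, Ideal.dvd_span_singleton]
    exact hv
  have hen : e ≤ finrank ℚ L := exp_le hp v.isPrime hv ⟨J, hJ⟩
  intro h
  apply not_dvd_different v.isPrime hv0 he0 hJ.symm hPJ
  refine dvd_trans (pow_dvd_pow _ ?_) h
  exact Nat.mul_le_mul (hen.trans hn) (Nat.add_le_add_right (Nat.log_mono_right hn) 1)

end Pool.Agent.KS6_12.Disc
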