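import Pool.Agent.KS6_12.Disc.Idem

set_option autoImplicit false

/-!
# The exponent of the different is bounded in terms of the degree (helper12)
-/

open Module nonZeroDivisors NumberField

namespace Pool.Agent.KS6_12.Disc

variable {L : Type*} [Field L] [NumberField L]

/-- divisibility of the trace -/
theorem trace_dvd {q : ℕ} (hq : q ≠ 0) {I J : Ideal (𝓞 L)}
    (hIJ : I * J ≤ Ideal.span {((q : ℕ) : 𝓞 L)}) (hI0 : I ≠ ⊥)
    (hD : differentIdeal ℤ (𝓞 L) ≤ I) {u : 𝓞 L} (hu : u ∈ J) :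
    (q : ℤ) ∣ Algebra.trace ℤ (𝓞 L) u := by
  have h1 := (differentialIdeal_le_iff (A := ℤ) (K := ℚ) (B := 𝓞 L) (L := L) hI0).1 hD
  have hq' : (q : L) ≠ 0 := by exact_mod_cast hq
  have hmem : (u : L) / q ∈ ((I⁻¹ : FractionalIdeal (𝓞 L)⁰ L) : Submodule (𝓞 L) L) := by
    change (u : L) / q ∈ (I⁻¹ : FractionalIdeal (𝓞 L)⁰ L)
    rw [FractionalIdeal.mem_inv_iff (by simpa using hI0)]
    intro y hy
    rw [FractionalIdeal.mem_coeIdeal] at hy
    obtain ⟨y, hy, rfl⟩ := hy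
    have h2 : y * u ∈ Ideal.span {((q : ℕ) : 𝓞 L)} := hIJ (Ideal.mul_mem_mul hy hu)
    rw [Ideal.mem_span_singleton] at h2
    obtain ⟨v, hv⟩ := h2
    rw [FractionalIdeal.mem_one_iff]
    refine ⟨v, ?_⟩
    have h3 := congrArg (algebraMap (𝓞 L) L) hv
    rw [map_mul, map_mul, map_natCast] at h3
    rw [div_mul_eq_mul_div, eq_div_iff hq', mul_comm (u : L)]
    rw [mul_comm, ← h3]
  have h2 : Algebra.trace ℚ L ((u : L) / q) ∈ (1 : Submodule ℤ ℚ) := by
    apply h1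
    refine ⟨(u : L) / q, hmem, rfl⟩
  rw [Submodule.mem_one] at h2
  obtain ⟨k, hk⟩ := h2
  have h4 : Algebra.trace ℚ L ((u : L) / q) = (Algebra.trace ℤ (𝓞 L) u : ℚ) / q := by
    rw [div_eq_mul_inv, mul_comm]
    have h5 : ((q : L)⁻¹) * (u : L) = ((q : ℚ)⁻¹) • (u : L) := by
      rw [Algebra.smul_def, map_inv₀, map_natCast]
    rw [h5, map_smul, Algebra.coe_trace_int, smul_eq_mul]
    ring
  rw [h4] at hk
  refine ⟨k, ?_⟩
  have hq'' : (q : ℚ) ≠ 0 := by exact_mod_cast hq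
  rw [eq_div_iff hq''] at hk
  have h6 : (Algebra.trace ℤ (𝓞 L) u : ℚ) = ((q : ℤ) * k : ℤ) := by
    rw [← hk]
    push_cast
    simp [mul_comm]
  exact_mod_cast h6

/-- **key lemma** -/
theorem key {p m : ℕ} [Fact p.Prime] (hm : 0 < m) {I J : Ideal (𝓞 L)}
    (hIJ : I * J = Ideal.span {((p ^ m : ℕ) : 𝓞 L)}) (hc : IsCoprime I J) (hI : I ≠ ⊤)
    (hD : differentIdeal ℤ (𝓞 L) ≤ I) : p ^ m ≤ finrank ℚ L := by
  classical
  have hp : p.Prime := Fact.out
  have hq : p ^ m ≠ 0 := (pow_pos hp.pos m).ne'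
  have hI0 : I ≠ ⊥ := by
    rintro rfl
    rw [Ideal.bot_mul] at hIJ
    have h1 : ((p ^ m : ℕ) : 𝓞 L) ∈ Ideal.span {((p ^ m : ℕ) : 𝓞 L)} :=
      Ideal.mem_span_singleton_self _
    rw [← hIJ, Ideal.mem_bot] at h1
    exact hq (by exact_mod_cast h1)
  obtain ⟨i, hi, u, hu, hiu⟩ := Ideal.isCoprime_iff_exists.1 hc
  have htr := trace_dvd hq hIJ.le hI0 hD hu
  obtain ⟨b, hb⟩ : ∃ b, b = RingOfIntegers.basis L := ⟨_, rfl⟩
  set E0 := Algebra.leftMulMatrix b u with hE0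
  set φ := Int.castRingHom (ZMod (p ^ m)) with hφ
  have hφ0 : φ ((p ^ m : ℕ) : ℤ) = 0 := by
    rw [hφ, eq_intCast, Int.cast_natCast, ZMod.natCast_self]
  have hidem : (E0.map φ) * (E0.map φ) = E0.map φ := by
    rw [← Matrix.map_mul]
    have h1 : i * u ∈ Ideal.span {((p ^ m : ℕ) : 𝓞 L)} := by
      rw [← hIJ]
      exact Ideal.mul_mem_mul hi hu
    rw [Ideal.mem_span_singleton] at h1
    obtain ⟨v, hv⟩ := h1
    have h2 : u * u = u - ((p ^ m : ℕ) : ℤ) • v := by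
      have : i = 1 - u := by rw [← hiu]; ring
      rw [this] at hv
      rw [zsmul_eq_mul]
      push_cast at hv ⊢
      linear_combination -hv
    rw [hE0, ← map_mul, h2, map_sub, map_zsmul]
    ext a c
    simp only [Matrix.map_apply, Matrix.sub_apply, Matrix.smul_apply, smul_eq_mul, map_sub, map_mul,
      hφ0, zero_mul, sub_zero]
  have hne : E0.map φ ≠ 0 := by
    intro h
    apply hI
    rw [Ideal.eq_top_iff_one, ← hiu]
    refine I.add_mem hi ?_
    have h1 : ∀ a, ((p ^ m : ℕ) : ℤ) ∣ b.repr u a := by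
      intro a
      have h2 : b.repr u a = ∑ c, E0 a c * b.repr 1 c := by
        have h3 := congrFun (Algebra.leftMulMatrix_mulVec_repr b u 1) a
        rw [mul_one] at h3
        rw [← h3]
        rfl
      rw [h2]
      refine Finset.dvd_sum fun c _ => Dvd.dvd.mul_right ?_ _
      have h4 : φ (E0 a c) = 0 := by
        have := congrFun (congrFun h a) c
        simpa using this
      rw [hφ, eq_intCast, ZMod.intCast_zmod_eq_zero_iff_dvd] at h4
      exact h4
    choose k hk using h1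
    have h5 : u = ((p ^ m : ℕ) : 𝓞 L) * ∑ a, k a • b a := by
      conv_lhs => rw [← b.sum_repr u]
      rw [Finset.mul_sum]
      refine Finset.sum_congr rfl fun a _ => ?_
      rw [hk a, mul_smul, zsmul_eq_mul]
      push_cast
      rfl
    have h6 : u ∈ Ideal.span {((p ^ m : ℕ) : 𝓞 L)} := by
      rw [Ideal.mem_span_singleton]
      exact ⟨_, h5⟩
    rw [← hIJ] at h6
    exact (Ideal.mul_le_left : I * J ≤ I) h6
  obtain ⟨r, hr1, hr2, hr3⟩ := trace_idem hm (E0.map φ) hidem hne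
  have h7 : (E0.map φ).trace = 0 := by
    have h10 : (E0.map φ).trace = φ E0.trace := (AddMonoidHom.map_trace φ E0).symm
    rw [h10, hE0, ← Algebra.trace_eq_matrix_trace b]
    obtain ⟨k, hk⟩ := htr
    rw [hk, map_mul, hφ0, zero_mul]
  have h8 : p ^ m ∣ r := by
    rw [h7] at hr3
    exact (ZMod.natCast_eq_zero_iff r (p ^ m)).1 hr3.symm
  have h9 : Fintype.card (Free.ChooseBasisIndex ℤ (𝓞 L)) = finrank ℚ L := by
    rw [← Module.finrank_eq_card_chooseBasisIndex, RingOfIntegers.rank]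
  exact (Nat.le_of_dvd hr1 h8).trans (hr2.trans h9.le)

end Pool.Agent.KS6_12.Disc
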