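import Mathlib

set_option autoImplicit false

/-!
# Traces of idempotent matrices modulo `p ^ m` (helper12)
-/

open Module

namespace Pool.Agent.KS6_12.Disc

theorem isLocalRing_zmod {p m : ℕ} [Fact p.Prime] (hm : 0 < m) : IsLocalRing (ZMod (p ^ m)) := by
  have hp : p.Prime := Fact.out
  have : Fact (1 < p ^ m) := ⟨Nat.one_lt_pow hm.ne' hp.one_lt⟩
  have : Nontrivial (ZMod (p ^ m)) := ZMod.nontrivial (p ^ m)
  exact IsLocalRing.of_surjective' (PadicInt.toZModPow (p := p) m) (ZMod.ringHom_surjective _)

/-- over a local ring, the trace of an idempotent endomorphism is the class of a number -/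
theorem trace_idem_local {R M : Type*} [CommRing R] [IsLocalRing R] [AddCommGroup M] [Module R M]
    [Module.Free R M] [Module.Finite R M] (f : M →ₗ[R] M) (hf : IsIdempotentElem f) (h0 : f ≠ 0) :
    ∃ r : ℕ, 1 ≤ r ∧ r ≤ finrank R M ∧ LinearMap.trace R M f = (r : R) := by
  have hpr := (LinearMap.isProj_range_iff_isIdempotentElem f).2 hf
  have hpk : Module.Projective R (LinearMap.range f) := by
    refine Module.Projective.of_split (LinearMap.range f).subtype (f.rangeRestrict) ?_
    ext ⟨x, y, rfl⟩
    exact LinearMap.congr_fun hf y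
  have hcompl : IsCompl (LinearMap.range f) (LinearMap.ker f) := hpr.isCompl
  have e := Submodule.prodEquivOfIsCompl _ _ hcompl
  have : Module.Finite R (LinearMap.range f) := Module.Finite.range f
  have hker : ∀ x, x - f x ∈ LinearMap.ker f := by
    intro x
    rw [LinearMap.mem_ker, map_sub, sub_eq_zero]
    exact (LinearMap.congr_fun hf x).symm
  have hsplit : (LinearMap.codRestrict (LinearMap.ker f) (LinearMap.id - f) (by
      intro x; simpa using hker x)) ∘ₗ (LinearMap.ker f).subtype = LinearMap.id := by
    ext ⟨x, hx⟩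
    rw [LinearMap.mem_ker] at hx
    simp [hx]
  have : Module.Projective R (LinearMap.ker f) :=
    Module.Projective.of_split (LinearMap.ker f).subtype _ hsplit
  have : Module.Finite R (LinearMap.ker f) := by
    refine Module.Finite.of_surjective (LinearMap.codRestrict (LinearMap.ker f)
      (LinearMap.id - f) (by intro x; simpa using hker x)) ?_
    intro y
    exact ⟨y, LinearMap.congr_fun hsplit y⟩
  have : Module.Free R (LinearMap.range f) := Module.free_of_flat_of_isLocalRing
  have : Module.Free R (LinearMap.ker f) := Module.free_of_flat_of_isLocalRing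
  refine ⟨finrank R (LinearMap.range f), ?_, ?_, hpr.trace⟩
  · rw [Nat.one_le_iff_ne_zero]
    intro h
    apply h0
    have h1 : Subsingleton (LinearMap.range f) := by
      rwa [← Module.finrank_eq_zero_iff_of_free (R := R)]
    ext x
    have h2 : (⟨f x, x, rfl⟩ : LinearMap.range f) = 0 := Subsingleton.elim _ _
    simpa using congrArg Subtype.val h2
  · rw [← e.finrank_eq, Module.finrank_prod]
    omega

/-- the trace of a nonzero idempotent matrix over `ℤ / p ^ m` is the class of a number between `1`
and the size of the matrix -/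
theorem trace_idem {p m : ℕ} [Fact p.Prime] (hm : 0 < m) {ι : Type*} [Fintype ι] [DecidableEq ι]
    (E : Matrix ι ι (ZMod (p ^ m))) (hE : E * E = E) (h0 : E ≠ 0) :
    ∃ r : ℕ, 1 ≤ r ∧ r ≤ Fintype.card ι ∧ E.trace = (r : ZMod (p ^ m)) := by
  have := isLocalRing_zmod (p := p) hm
  obtain ⟨r, h1, h2, h3⟩ := trace_idem_local (R := ZMod (p ^ m)) (Matrix.toLin' E) (by
    change Matrix.toLin' E ∘ₗ Matrix.toLin' E = Matrix.toLin' E
    rw [← Matrix.toLin'_mul, hE]) (by simpa using h0)
  refine ⟨r, h1, ?_, ?_⟩
  · simpa using h2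
  · rw [← h3, Matrix.trace_toLin'_eq]

end Pool.Agent.KS6_12.Disc
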