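import Pool.Agent.KS6_12.Disc.Bound

set_option autoImplicit false

/-!
# Discriminants in towers (helper12)
-/

open Module nonZeroDivisors NumberField IsDedekindDomain

namespace Pool.Agent.KS6_12.Disc

variable (K L : Type*) [Field K] [NumberField K] [Field L] [NumberField L] [Algebra K L]

/-- the formula for the discriminant in a tower -/
theorem natAbs_discr_eq : (discr L).natAbs =
    Ideal.absNorm (differentIdeal (𝓞 K) (𝓞 L)) * (discr K).natAbs ^ finrank K L :=
  natAbs_discr_eq_absNorm_differentIdeal_mul_natAbs_discr_pow K (𝓞 K) L (𝓞 L)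

/-- the discriminant in a tower, divisibility -/
theorem discr_pow_dvd : (discr K).natAbs ^ finrank K L ∣ (discr L).natAbs :=
  ⟨_, (natAbs_discr_eq K L).trans (mul_comm _ _)⟩

theorem natAbs_discr_pos : 0 < (discr L).natAbs := Int.natAbs_pos.2 (discr_ne_zero L)

theorem absNorm_different_pos : 0 < Ideal.absNorm (differentIdeal (𝓞 K) (𝓞 L)) := by
  rw [Nat.pos_iff_ne_zero]
  intro h
  have h1 := natAbs_discr_eq K L
  rw [h, zero_mul] at h1
  exact (natAbs_discr_pos L).ne' h1

/-- the logarithm of the discriminant in a tower -/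
theorem log_discr_eq : Real.log (discr L).natAbs =
    Real.log (Ideal.absNorm (differentIdeal (𝓞 K) (𝓞 L))) +
      finrank K L * Real.log (discr K).natAbs := by
  have h1 : (0 : ℝ) < Ideal.absNorm (differentIdeal (𝓞 K) (𝓞 L)) := by
    exact_mod_cast absNorm_different_pos K L
  have h2 : (0 : ℝ) < (discr K).natAbs := by exact_mod_cast natAbs_discr_pos K
  rw [natAbs_discr_eq K L, Nat.cast_mul, Nat.cast_pow, Real.log_mul h1.ne' (by positivity),
    Real.log_pow]

/-- the root discriminant increases in towers -/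
theorem log_discr_mono : finrank K L * Real.log (discr K).natAbs ≤ Real.log (discr L).natAbs := by
  rw [log_discr_eq K L]
  have h1 : (1 : ℝ) ≤ Ideal.absNorm (differentIdeal (𝓞 K) (𝓞 L)) := by
    exact_mod_cast absNorm_different_pos K L
  have := Real.log_nonneg h1
  linarith

/-- the relative different divides the absolute different -/
theorem different_dvd : differentIdeal (𝓞 K) (𝓞 L) ∣ differentIdeal ℤ (𝓞 L) :=
  ⟨_, differentIdeal_eq_differentIdeal_mul_differentIdeal ℤ (𝓞 K) (𝓞 L)⟩

/-- **M3** for the relative different -/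
theorem m3_rel (n : ℕ) {p : ℕ} (hp : p.Prime) (hn : finrank ℚ L ≤ n)
    (v : HeightOneSpectrum (𝓞 L)) (hv : ((p : ℕ) : 𝓞 L) ∈ v.asIdeal) :
    ¬ v.asIdeal ^ (n * (Nat.log p n + 1)) ∣ differentIdeal (𝓞 K) (𝓞 L) :=
  fun h => m3 n hp L hn v hv (h.trans (different_dvd K L))

end Pool.Agent.KS6_12.Disc
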